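import Mathlib

set_option autoImplicit false

namespace Pool.Agent.Results.MP_8a117e_lc.Strongly

open Cardinal Set

/-- `L ↠ K`: a weakly order-preserving surjection from `L` onto `K`. -/
def Onto (L K : Set ℝ) : Prop := ∃ f : L → K, Monotone f ∧ Function.Surjective f

/-- `L` maps onto each of its nonempty suborders. -/
def StronglySurjective (L : Set ℝ) : Prop := ∀ K, K ⊆ L → K.Nonempty → Onto L K

/-- `L` has at least `κ` points and maps onto each of its nonempty suborders of size `κ`. -/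
def KSurjective (κ : Cardinal.{0}) (L : Set ℝ) : Prop :=
  κ ≤ #L ∧ ∀ K, K ⊆ L → K.Nonempty → #K = κ → Onto L K

theorem small_union {κ : Cardinal.{0}} (hκ : κ.IsRegular) {I : Type} (hI : #I < κ)
    (A : I → Set ℝ) (hA : ∀ i, #(A i) < κ) : #(⋃ i, A i) < κ :=
  lt_of_le_of_lt (mk_iUnion_le_sum_mk) (sum_lt_of_isRegular hκ hI hA)

theorem diff_card {κ : Cardinal.{0}} (hκ : ℵ₀ ≤ κ) {A B : Set ℝ} (hA : κ ≤ #A) (hB : #B < κ) :
    κ ≤ #(A \ B : Set ℝ) := by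
  by_contra h
  have h1 := add_lt_of_lt hκ (not_le.1 h) hB
  exact absurd (hA.trans (le_mk_sdiff_add_mk A B)) (not_le.2 h1)

theorem side {κ : Cardinal.{0}} (hκ : κ.IsRegular) (hu : ℵ₀ < κ) (L : Set ℝ) (hL : #L = κ)
    (r : ℝ → ℝ → Prop) (hr : ∀ x y z, r x y → r y z → r x z)
    (hd : ∀ x y, r x y → ∃ q : ℚ, r x q ∧ r q y) (ht : ∀ x y, r x y ∨ x = y ∨ r y x)
    (hs : ∀ K, K ⊆ L → K.Nonempty → #K = κ →
      ∃ f : L → K, Function.Surjective f ∧ ∀ x y, r (f x) (f y) → r x y) :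
    ∀ x ∈ L, κ ≤ #{y | y ∈ L ∧ r y x} := by
  let A : Set ℝ := {x | x ∈ L ∧ #{y | y ∈ L ∧ r y x} < κ}
  have hA : #A < κ := by
    let B : ℚ → Set ℝ := fun q => {y | y ∈ L ∧ r y q ∧ ∃ x ∈ A, r q x}
    have h1 : ∀ q, #(B q) < κ := by
      intro q
      by_cases h2 : ∃ x ∈ A, r q x
      · obtain ⟨x, hx, h2⟩ := h2
        refine lt_of_le_of_lt (mk_le_mk_of_subset (fun y hy => ?_)) hx.2
        exact ⟨hy.1, hr _ _ _ hy.2.1 h2⟩
      · have : B q = ∅ := eq_empty_of_forall_notMem (fun y hy => h2 hy.2.2)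
        rw [this]
        simpa using hκ.pos
    have h2 := small_union hκ (I := ℚ) (by simpa using hu) B h1
    have h3 : (A \ ⋃ q, B q).Subsingleton := by
      intro x hx y hy
      rcases ht x y with h4 | h4 | h4
      · obtain ⟨q, h5, h6⟩ := hd x y h4
        exact absurd (mem_iUnion.2 ⟨q, show x ∈ B q from ⟨hx.1.1, h5, y, hy.1, h6⟩⟩) hx.2
      · exact h4
      · obtain ⟨q, h5, h6⟩ := hd y x h4
        exact absurd (mem_iUnion.2 ⟨q, show y ∈ B q from ⟨hy.1.1, h5, x, hx.1, h6⟩⟩) hy.2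
    by_contra h4
    have h5 := diff_card hu.le (not_lt.1 h4) h2
    have h6 : #(A \ ⋃ q, B q : Set ℝ) ≤ ℵ₀ := le_aleph0_iff_set_countable.2 h3.finite.countable
    exact absurd (h5.trans h6) (not_le.2 hu)
  have h1 := diff_card hu.le hL.ge hA
  have h2 : (L \ A).Nonempty := by
    rw [← nonempty_coe_sort, ← mk_ne_zero_iff]
    exact ne_of_gt (lt_of_lt_of_le hκ.pos h1)
  obtain ⟨f, hf1, hf2⟩ := hs (L \ A) sdiff_subset h2
    (le_antisymm (hL ▸ mk_le_mk_of_subset sdiff_subset) h1)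
  intro x hx
  have h3 : κ ≤ #{y | y ∈ L ∧ r y (f ⟨x, hx⟩)} := not_lt.1 (fun h => (f ⟨x, hx⟩).2.2 ⟨(f ⟨x, hx⟩).2.1, h⟩)
  refine (diff_card hu.le h3 hA).trans ?_
  choose g hg using hf1
  refine mk_le_of_injective (f := fun y => ⟨g ⟨y.1, y.2.1.1, y.2.2⟩, (g _).2,
    hf2 _ ⟨x, hx⟩ (by rw [hg]; exact y.2.1.2)⟩) (fun y z hyz => ?_)
  have h4 := congrArg f (Subtype.ext (Subtype.mk.inj hyz))
  rw [hg, hg] at h4
  exact Subtype.ext (Subtype.mk.inj h4)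

theorem main {κ : Cardinal.{0}} (hκ : κ.IsRegular) (hu : ℵ₀ < κ) (L : Set ℝ) (hL : #L = κ)
    (h : KSurjective κ L) : StronglySurjective L := by
  classical
  intro K hKL hK
  by_cases hc : #K = κ
  · exact h.2 K hKL hK hc
  have hK2 : #K < κ := lt_of_le_of_ne (hL ▸ mk_le_mk_of_subset hKL) hc
  have s1 := side hκ hu L hL (· < ·) (fun _ _ _ => lt_trans) (fun x y => exists_rat_btwn)
    lt_trichotomy (fun M h1 h2 h3 => by
      obtain ⟨f, g1, g2⟩ := h.2 M h1 h2 h3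
      exact ⟨f, g2, fun x y hxy => g1.reflect_lt hxy⟩)
  have s2 := side hκ hu L hL (· > ·) (fun _ _ _ => gt_trans)
    (fun x y hxy => (exists_rat_btwn hxy).imp (fun _ hq => ⟨hq.2, hq.1⟩))
    (fun x y => by rcases lt_trichotomy x y with h | h | h <;> simp [h]) (fun M h1 h2 h3 => by
      obtain ⟨f, g1, g2⟩ := h.2 M h1 h2 h3
      exact ⟨f, g2, fun x y hxy => g1.reflect_lt hxy⟩)
  obtain ⟨k0, hk0⟩ := hK
  let M : Set ℝ := K ∪ {y | y ∈ L ∧ y > k0}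
  have hML : M ⊆ L := union_subset hKL (fun y hy => hy.1)
  obtain ⟨f, hf1, hf2⟩ := h.2 M hML ⟨k0, Or.inl hk0⟩ (le_antisymm (hL ▸ mk_le_mk_of_subset hML)
    ((s2 k0 (hKL hk0)).trans (mk_le_mk_of_subset subset_union_right)))
  choose g hg using hf2
  let F : K → Set ℝ := fun k => {y | ∃ hy : y ∈ L, (f ⟨y, hy⟩ : ℝ) = k}
  obtain ⟨k, hk⟩ : ∃ k, κ ≤ #(F k) := by
    by_contra h1
    push Not at h1
    refine absurd ((s1 _ (g ⟨k0, Or.inl hk0⟩).2).trans (mk_le_mk_of_subset ?_))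
      (not_le.2 (small_union hκ hK2 F h1))
    rintro y ⟨hy1, hy2⟩
    have h2 := hf1 (show (⟨y, hy1⟩ : L) ≤ g ⟨k0, Or.inl hk0⟩ from hy2.le)
    rw [hg] at h2
    rcases (f ⟨y, hy1⟩).2 with h3 | h3
    · exact mem_iUnion.2 ⟨⟨_, h3⟩, hy1, rfl⟩
    · exact absurd h3.2 (not_lt.2 h2)
  let N : Set ℝ := ⋃ k, F k
  have hNL : N ⊆ L := iUnion_subset (fun k y hy => hy.1)
  have hN : ∀ y : N, (f ⟨y, hNL y.2⟩ : ℝ) ∈ K := by
    rintro ⟨y, hy⟩
    obtain ⟨k, h1, h2⟩ := mem_iUnion.1 hy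
    rw [h2]
    exact k.2
  have hg2 : ∀ k : K, (g ⟨k, Or.inl k.2⟩ : ℝ) ∈ N := fun k =>
    mem_iUnion.2 ⟨k, (g _).2, by rw [Subtype.coe_eta, hg]⟩
  obtain ⟨e, he1, he2⟩ := h.2 N hNL ⟨_, hg2 k⟩ (le_antisymm (hL ▸ mk_le_mk_of_subset hNL)
    (hk.trans (mk_le_mk_of_subset (subset_iUnion F k))))
  refine ⟨fun x => ⟨_, hN (e x)⟩, fun x y hxy => hf1 (he1 hxy), fun k => ?_⟩
  obtain ⟨x, hx⟩ := he2 ⟨_, hg2 k⟩
  refine ⟨x, Subtype.ext ?_⟩
  simp only [hx, Subtype.coe_eta, hg]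

theorem result (L : Set ℝ) (hL : #L = ℵ_ 2) (h : KSurjective (ℵ_ 2) L) :
    StronglySurjective L := by
  refine main ?_ ?_ L hL h
  · simpa [one_add_one_eq_two] using isRegular_aleph_add_one 1
  · rw [← aleph_zero]
    exact aleph_lt_aleph.2 (by norm_num)

end Pool.Agent.Results.MP_8a117e_lc.Strongly
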